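import Pool.Agent.L5helper14.FDC.Dig
import Pool.Agent.N140.RO.Cnt
import Pool.Agent.N24.RW.All
import Pool.Agent.N954.RO.Leh

/-!
# MP_2194ec_nt: the dynamical Lehmer inequality for most polynomials near an arbitrary polynomial, in the
# sense of the digits of the coefficients

The starting result `PolynomialLehmer` shows that for 100% of the vectors `(b, c₀, …, c_d)` of integers
of a number field `K` in large boxes the polynomial

  `φ = (c₀ + c₁ x + … + c_d x^d) / b`

of degree `d ≥ 2` satisfies the dynamical Lehmer inequality `ĥ_φ(x) ≥ B / [L : K]` for all number
fields `L ⊇ K` of degree not divisible by `d` and all `x ∈ L` (and `ĥ_φ(x) ≥ B` if `L` is Galois over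
`K`); here `B` is any constant given in advance. The starting results `ThinSequences`, `RandomOrbits` and
the result `TypicalSequences` of this page are about sequences of vectors.

**Changing few digits.** Let `K` be of degree `m`, so that an integral basis identifies `ℤ^(m (d + 2))` with
`O_K^(d + 2)`. The coordinates are indexed by `l ∈ Fin (d + 2) × Fin m`. For every `l` let `b l ≥ 2` be a
base, and let `K l` and `r l` be numbers with `ρ ≤ r l ≤ K l / 2`. Choose `r l` of the `K l` positions
`0, …, K l - 1` at random, for different `l` independently. Replace the digits of a natural number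
`N l < (b l) ^ (K l)` at the chosen positions by other digits (`change`), or add to an integer `c l` a
nonzero multiple `D l i (b l) ^ i`, `|D l i| < b l`, for each chosen position `i`; for example (`c l = 0`,
`D l i = 1`) all the coordinates are numbers with exactly `r l` digits `1`, and the other digits are `0`.

**Theorem.** Let the bases `b l ≥ 2` be given. There are sets `E 0, E 1, …` of integral vectors and
proportions `ω ρ` which tend to zero, `ρ → ∞`, such that (`Rare`)
* for ALL `K l`, `r l` with `ρ ≤ r l ≤ K l / 2`, ALL `N l`, and ALL new digits (ALL `c l`, `D l i`) at most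
  the proportion `ω ρ` of the choices of the positions gives a vector in `E ρ`;
* for ALL number fields of degree `m`, ALL integral bases and ALL constants `B > 0` the polynomials of
  degree `d` with the vector `c` satisfy the dynamical Lehmer inequality with the constant `B`, for all
  vectors `c` which are not in `E ρ`, if `ρ` is large.

So near every polynomial with integral coefficients, in the sense of the Hamming distance of the digits,
most polynomials satisfy the dynamical Lehmer inequality, if the distances `r l` are large, uniformly in the
polynomial and in the numbers `K l` of the digits, which may be arbitrarily large in comparison with the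
`r l`: the polynomials considered are very few among those of their size, no boxes, no residue classes and
no averages over all polynomials are involved.

Proof. The exceptional vectors of a number field form a pronull set (`Pool.Agent.N954.RO`, helper954, with
the local criterion of helper692), which depends only on the structure constants of the integral basis
and on a natural number; so there are countably many pronull sets. The new part is the equidistribution of
changed digits modulo fixed integers `Q` which are prime to `(b l)²!`: the exponential sums are elementary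
symmetric functions of roots of unity in which neighbouring ones are different, because `D' b - D` is not
divisible by any prime `> b ^ 2`, and the bound of helper894 for symmetric functions applies
(`Pool.Agent.L5helper14.FDC`).
-/

set_option autoImplicit false

namespace Pool.Agent.Results.MP_2194ec_nt.FewDigitChanges

open NumberField Filter Topology Module
open Pool.Agent.L5helper14.FDC (Rare rare_family)
open Pool.Agent.Results.MP_2194ec_nt.PolynomialLehmer (Exceptional)

/-- The vector of integers of `K` with the given coordinates in the integral basis `w`. -/
noncomputable def vector {K : Type} [Field K] {m : ℕ} (w : Module.Basis (Fin m) ℤ (𝓞 K)) {d : ℕ}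
    (c : Fin (d + 2) × Fin m → ℤ) (i : Fin (d + 2)) : 𝓞 K :=
  ∑ j : Fin m, c (i, j) • w j

/-- **The dynamical Lehmer inequality for most polynomials near an arbitrary polynomial.** -/
theorem result (m d : ℕ) (hd : 2 ≤ d) (b : Fin (d + 2) × Fin m → ℕ) (hb : ∀ l, 2 ≤ b l) :
    ∃ (E : ℕ → Set (Fin (d + 2) × Fin m → ℤ)) (ω : ℕ → ℝ), Rare b E ω ∧
      ∀ (K : Type) [Field K] [NumberField K] (w : Module.Basis (Fin m) ℤ (𝓞 K)) (B : ℝ), 0 < B →
        ∃ ρ₀ : ℕ, ∀ ρ, ρ₀ ≤ ρ → ∀ c : Fin (d + 2) × Fin m → ℤ, c ∉ E ρ →
          vector w c ∉ Exceptional K d B := by
  classical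
  obtain ⟨E, ω, h1, h2⟩ := rare_family (κ := (Fin m × Fin m × Fin m → ℤ) × ℕ) b hb
    (fun q => Pool.Agent.N954.RO.ExcC q.1 d q.2)
    (fun A B hA hB => Pool.Agent.N24.RW.Clo.union hA hB) (by
      rintro ⟨κ, M⟩
      by_cases hex : ∃ (K : Type) (_ : Field K) (_ : NumberField K)
          (w : Module.Basis (Fin m) ℤ (𝓞 K)), Pool.Agent.N692.TS.code w = κ
      · obtain ⟨K₀, _, _, w₀, hw₀⟩ := hex
        exact Pool.Agent.N954.RO.excC_null Pool.Agent.N24.RW.crit Pool.Agent.N24.RW.clo κ d hd
          M K₀ w₀ hw₀
      · have he : Pool.Agent.N954.RO.ExcC κ d M = ∅ := by
          rw [Set.eq_empty_iff_forall_notMem]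
          rintro v ⟨K, i1, i2, w, hw, -⟩
          exact hex ⟨K, i1, i2, w, hw⟩
        show Pool.Agent.N24.RW.ProNull (Pool.Agent.N954.RO.ExcC κ d M)
        rw [he]
        exact Pool.Agent.N140.RO.proNull_empty)
  refine ⟨E, ω, h1, fun K _ _ w B hB => ?_⟩
  obtain ⟨ρ₀, hρ₀⟩ := h2 (Pool.Agent.N692.TS.code w, ⌈Real.exp (B * d * finrank ℚ K)⌉₊)
  refine ⟨ρ₀, fun ρ hρ c hc => ?_⟩
  by_contra hbad
  exact hc (hρ₀ ρ hρ ⟨K, inferInstance, inferInstance, w, rfl, fun hg =>
    (Pool.Agent.N954.RO.not_exceptional hd hB _ hg) hbad⟩)

end Pool.Agent.Results.MP_2194ec_nt.FewDigitChanges
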