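import Pool.Agent.L5helper79.LQ.Main

/-!
# The dynamical Lehmer conjecture: number fields, rational maps ⟸ `ℚ`, integer polynomial maps

For every morphism `F : P^N → P^N` of degree `d ≥ 2` over a number field `K` of degree `n` there are
`M = (N + 1) n` forms `g_1, …, g_M` of degree `d` in `M` variables with integer coefficients and
without common zero such that the inequality of the conjecture for the polynomial map
`(g_1, …, g_M)` of the affine `M`-space (extended to `P^M`) over `ℚ` implies the inequality for `F`
over `K`.  So the whole conjecture is equivalent to its case of integer polynomial maps over `ℚ`.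

The forms `g` are the coordinates of `F` (a common multiple) in a basis `b` of `K` over `ℚ`; a point
`P` over `L ⊇ K` is sent to `(P_l c_i)_{l,i}`, `c` the dual basis, which has coordinates in `L` again.
-/

set_option autoImplicit false

namespace Pool.Agent.Results.MP_2194ec_nt.IntegerPolynomialMaps

open L5helper79.LQ MvPolynomial Module

/-- see the claim file -/
theorem result :
    (∀ (K : Type) [Field K] [NumberField K] (N d : ℕ)
      (F : Fin (N + 1) → MvPolynomial (Fin (N + 1)) K), 2 ≤ d → IsMorphism K d F →
      ∃ g : Fin ((N + 1) * finrank ℚ K) → MvPolynomial (Fin ((N + 1) * finrank ℚ K)) ℤ,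
        IsMorphism ℚ d (extend d g) ∧ (Lehmer ℚ d (extend d g) → Lehmer K d F)) ∧
    ((∀ (K : Type) [Field K] [NumberField K] (N d : ℕ)
      (F : Fin (N + 1) → MvPolynomial (Fin (N + 1)) K), 2 ≤ d → IsMorphism K d F →
        Lehmer K d F) ↔
      ∀ (M d : ℕ) (g : Fin M → MvPolynomial (Fin M) ℤ), 2 ≤ d → IsMorphism ℚ d (extend d g) →
        Lehmer ℚ d (extend d g)) := by
  have h1 : ∀ (K : Type) [Field K] [NumberField K] (N d : ℕ)
      (F : Fin (N + 1) → MvPolynomial (Fin (N + 1)) K), 2 ≤ d → IsMorphism K d F →
      ∃ g : Fin ((N + 1) * finrank ℚ K) → MvPolynomial (Fin ((N + 1) * finrank ℚ K)) ℤ,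
        IsMorphism ℚ d (extend d g) ∧ (Lehmer ℚ d (extend d g) → Lehmer K d F) := by
    intro K _ _ N d F hd hF
    obtain ⟨D, hD, g, hg⟩ := exists_good F
    exact ⟨g, morph hd hF hD hg, lehmer_of hd hF hD hg⟩
  refine ⟨h1, fun h M d g hd hg => h ℚ M d _ hd hg, fun h K _ _ N d F hd hF => ?_⟩
  obtain ⟨g, hg, hL⟩ := h1 K N d F hd hF
  exact hL (h _ d g hd hg)

end Pool.Agent.Results.MP_2194ec_nt.IntegerPolynomialMaps
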