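import Pool.Agent.L5helper9.Ql13

/-!
# The dynamical Lehmer conjecture up to `D ^ (-ε)`, in every dimension, for the maps with
potentially good, purely inseparable reduction

Let `K` be a number field and `f` an endomorphism of `P^N` over `K`, of degree `p ^ r` with `p` a
prime number, given by `N + 1` forms. Assume that over some finite extension `K'` of `K`, in some
coordinates, `f` has good and purely inseparable reduction at a finite place `v` of `K'` above `p`.
Then there is a constant `C > 0` such that, for all finite extensions `L` of `K`, of degree `D`,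
all wandering points `P` of `P^N(L)` satisfy
`ĥ(P) ≥ exp (-C * (1 + log D) ^ (N / (N + 1))) / D`.
In particular `ĥ(P) ≥ c(ε) * D ^ (-1 - ε)` for every `ε > 0`.

The proof compares, for the forms `G` of a given degree, the values of `G` at the conjugates of
several consecutive iterates of `P`: by Dwork's congruences for the lift `f` of a power of
Frobenius, the values modulo `𝔭 ^ m` at all iterates from the `(m - 1)`-th on are determined by `m`
values modulo `𝔭` of forms at `P`, so that the forms which are divisible by `𝔭 ^ m` at all of these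
points form a lattice of small index; interpolation determinants and the product formula conclude.
-/

set_option autoImplicit false

namespace Pool.Agent.Results.MP_2194ec_nt.ProjectiveQuasiLehmer

open MvPolynomial NumberField Module Filter Topology

/-- A tuple `G` of `N + 1` forms of degree `q` over the number field `k` has *good, purely
inseparable reduction* at the finite place `v`: all coefficients are `v`-integral, those of the
monomials which are not of the form `X_j ^ q` are in the maximal ideal, and the determinant of the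
coefficients of the `X_j ^ q` is a unit at `v`. -/
def GoodInseparable {k : Type} [Field k] [NumberField k] {N : ℕ} (v : FinitePlace k) (q : ℕ)
    (G : Fin (N + 1) → MvPolynomial (Fin (N + 1)) k) : Prop :=
  (∀ i m, v ((G i).coeff m) ≤ 1) ∧
  (∀ i m, (∀ j, m ≠ Finsupp.single j q) → v ((G i).coeff m) < 1) ∧
  v (Matrix.det (Matrix.of fun i j => (G i).coeff (Finsupp.single j q))) = 1

/-- the map defined by a tuple of forms, on coordinate vectors over an extension -/
noncomputable def evalMap {K L : Type} [Field K] [Field L] [Algebra K L] {N : ℕ}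
    (F : Fin (N + 1) → MvPolynomial (Fin (N + 1)) K) (y : Fin (N + 1) → L) : Fin (N + 1) → L :=
  fun i => aeval y (F i)

/-- the point with coordinate vector `x` is wandering: its iterates are pairwise distinct points
of the projective space -/
def Wandering {K L : Type} [Field K] [Field L] [Algebra K L] {N : ℕ}
    (F : Fin (N + 1) → MvPolynomial (Fin (N + 1)) K) (x : Fin (N + 1) → L) : Prop :=
  ¬ ∃ m n : ℕ, m ≠ n ∧ ∃ c : L, c ≠ 0 ∧ (evalMap F)^[n] x = c • (evalMap F)^[m] x

/-- `h` is the canonical height of the point with coordinate vector `x` over the number field `L`: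
the limit of `h(F^n(x)) / q ^ n`, where `h` is the absolute logarithmic Weil height, that is
Mathlib's (relative) `Height.logHeight` divided by `[L : ℚ]` -/
def IsCanonicalHeight {K L : Type} [Field K] [Field L] [NumberField L] [Algebra K L] {N : ℕ}
    (F : Fin (N + 1) → MvPolynomial (Fin (N + 1)) K) (q : ℕ) (x : Fin (N + 1) → L) (h : ℝ) :
    Prop :=
  Tendsto (fun n : ℕ => Height.logHeight ((evalMap F)^[n] x) /
    ((finrank ℚ L : ℝ) * (q : ℝ) ^ n)) atTop (𝓝 h)

/-- **Main result.** The canonical height of all wandering points of degree at most `D` exists and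
is at least `exp (-C * (1 + log D) ^ (N / (N + 1))) / D`, in particular, for all `ε > 0`, at least
`c(ε) * D ^ (-1 - ε)`. -/
theorem result (K K' : Type) [Field K] [NumberField K] [Field K'] [NumberField K']
    [Algebra K K'] (N p r : ℕ) (hp : p.Prime) (hr : 1 ≤ r)
    -- the map over `K`
    (F : Fin (N + 1) → MvPolynomial (Fin (N + 1)) K) (_hF : ∀ i, (F i).IsHomogeneous (p ^ r))
    -- a linear change of coordinates over `K'` and the forms in the new coordinates
    (A : Matrix (Fin (N + 1)) (Fin (N + 1)) K') (hA : A.det ≠ 0)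
    (G : Fin (N + 1) → MvPolynomial (Fin (N + 1)) K') (hG : ∀ i, (G i).IsHomogeneous (p ^ r))
    (hconj : ∀ i, ∑ j, C (A i j) * map (algebraMap K K') (F j) =
      bind₁ (fun l => ∑ j, C (A l j) * X j) (G i))
    (v : FinitePlace K') (hv : v (p : K') < 1) (hred : GoodInseparable v (p ^ r) G) :
    (∃ C : ℝ, 0 < C ∧ ∀ (L : Type) [Field L] [NumberField L] [Algebra K L]
      (x : Fin (N + 1) → L), x ≠ 0 → Wandering F x →
      ∃ h : ℝ, IsCanonicalHeight F (p ^ r) x h ∧
        Real.exp (-(C * (1 + Real.log (finrank K L)) ^ ((N : ℝ) / (N + 1)))) / finrank K L ≤ h) ∧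
    ∀ ε : ℝ, 0 < ε → ∃ c : ℝ, 0 < c ∧ ∀ (L : Type) [Field L] [NumberField L] [Algebra K L]
      (x : Fin (N + 1) → L), x ≠ 0 → Wandering F x →
      ∃ h : ℝ, IsCanonicalHeight F (p ^ r) x h ∧ c * (finrank K L : ℝ) ^ (-(1 + ε)) ≤ h := by
  obtain ⟨h1, h2, h3⟩ := hred
  obtain ⟨C, hC, h4⟩ := L5helper9.Ql.poly2 hp hr F A hA G hG hconj v hv ⟨h1, h2, h3⟩
  refine ⟨⟨C, hC, fun L _ _ _ x hx hw => h4 L x hx hw⟩, fun ε hε => ?_⟩
  have hθ0 : (0 : ℝ) ≤ (N : ℝ) / (N + 1) := by positivity
  have hθ1 : (N : ℝ) / (N + 1) < 1 := by
    rw [div_lt_one (by positivity)]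
    linarith
  obtain ⟨c, hc, h5⟩ := L5helper9.Ql.exp_pow_ge hC hε hθ0 hθ1
  refine ⟨c, hc, fun L _ _ _ x hx hw => ?_⟩
  obtain ⟨h, hlim, hbd⟩ := h4 L x hx hw
  exact ⟨h, hlim, (h5 (finrank K L) finrank_pos).trans hbd⟩

end Pool.Agent.Results.MP_2194ec_nt.ProjectiveQuasiLehmer
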