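import Pool.Agent.N918.EQ.Typ
import Pool.Agent.N24.RW.All
import Pool.Agent.N954.RO.Leh

/-!
# MP_2194ec_nt: the dynamical Lehmer inequality along equidistributed sequences, metric sequences and
# random orbits of polynomials, for all number fields of a given degree at the same time

The starting result `PolynomialLehmer` shows that for 100% of the vectors `(b, c₀, …, c_d)` of integers
of a number field `K` in large boxes the polynomial

  `φ = (c₀ + c₁ x + … + c_d x^d) / b`

of degree `d ≥ 2` satisfies the dynamical Lehmer inequality `ĥ_φ(x) ≥ B / [L : K]` for all number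
fields `L ⊇ K` of degree not divisible by `d` and all `x ∈ L` (and `ĥ_φ(x) ≥ B` if `L` is Galois over
`K`); here `B` is any constant given in advance. The starting result `ThinSequences` is about the
vectors of the integral parts of generalised polynomials with real exponents, and the starting result
`RandomOrbits` about random orbits of thin groups.

Here the vectors form ONE sequence `c 0, c 1, c 2, …` of integral vectors, `S 0, S 1, …` are finite sets
of times, and the property `GoodSequence m d S c` means that for ALL number fields `K` of degree `m`, ALL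
integral bases of `K` (which identify `ℤ^(m (d + 2))` with `O_K^(d + 2)`) and ALL constants `B > 0` the
proportion of the times `n` in `S M` for which the polynomial with the vector `c n` does not satisfy
the inequality tends to zero, `M → ∞`.

**Theorem.** This property is typical (`Pool.Agent.N918.EQ.Typical`):

(1) All `(S, c)` have it for which `c` is equidistributed along `S` modulo all `q` prime to some number
(`S` is arbitrary: intervals, short intervals, the primes of an interval, any sparse sets).

For the sets of times `{0, ..., M - 1}`:

(2) For any Koksma sequences `f_{i,0}, f_{i,1}, ...` on intervals, for almost all `x` in the box the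
sequence `c n = (⌊f_{i,n}(x_i)⌋)_i` has it.

(3) For ARBITRARY real numbers `a_{i,n}` with `|a_{i,n} - a_{i,n'}| ≥ δ > 0`, `n ≠ n'` (any different
integers: factorials, `2 ^ n`, ...), for almost all real vectors `x` the sequence
`c n = (⌊a_{i,n} x_i⌋)_i` has it.

(4) For different natural numbers `k_n` and `ξ_i ≠ 0`, for almost all `x` with all `x_i > 1` the sequence
`c n = (⌊ξ_i x_i ^ (k_n)⌋)_i` has it.

(5) (The starting result `RandomOrbits`.) Random orbits of groups of integral matrices which are dense
modulo almost all integers have it almost surely.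

In (2) - (5) there is ONE null set of `x`, or of words, for all number fields, bases and constants.

Proof. The exceptional vectors of a number field form a pronull set (`Pool.Agent.N954.RO`, helper954, with
the local criterion of helper692), which depends only on the structure constants of the integral basis
and on a natural number; so there are countably many pronull sets. Typical sequences rarely visit pronull
sets (`Pool.Agent.N918.EQ`, helper918, with the engines `Pool.Agent.N24.KM` for metric sequences and
`Pool.Agent.N24.RW` for random orbits).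
-/

set_option autoImplicit false

namespace Pool.Agent.Results.MP_2194ec_nt.TypicalSequences

open NumberField Filter Topology MeasureTheory Module
open Pool.Agent.Results.MP_2194ec_nt.PolynomialLehmer (Exceptional)
open Pool.Agent.N24.RW (ProNull)
open Pool.Agent.N918.EQ (Typical RareIn)

/-- The proportion of the `n` in `S M` without the property `P` tends to zero, `M → ∞`. -/
def Usually (S : ℕ → Finset ℕ) (P : ℕ → Prop) : Prop :=
  ∀ ε : ℝ, 0 < ε → ∃ M₀ : ℕ, ∀ M : ℕ, M₀ ≤ M →
    (({n : ℕ | n ∈ S M ∧ ¬ P n}.ncard : ℕ) : ℝ) ≤ ε * (S M).card

/-- The vector of integers of `K` with the given coordinates in the integral basis `ω`. -/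
noncomputable def vector {K : Type} [Field K] {m : ℕ} (ω : Module.Basis (Fin m) ℤ (𝓞 K)) {d : ℕ}
    (c : Fin (d + 2) × Fin m → ℤ) (i : Fin (d + 2)) : 𝓞 K :=
  ∑ j : Fin m, c (i, j) • ω j

/-- For all number fields `K` of degree `m`, all integral bases and all `B > 0`: for most of the times the
polynomial of degree `d` with the vector `c n` is not exceptional, that is, it satisfies the dynamical
Lehmer inequality with the constant `B`. -/
def GoodSequence (m d : ℕ) (S : ℕ → Finset ℕ) (c : ℕ → Fin (d + 2) × Fin m → ℤ) : Prop :=
  ∀ (K : Type) [Field K] [NumberField K] (ω : Module.Basis (Fin m) ℤ (𝓞 K)) (B : ℝ), 0 < B →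
    Usually S fun n => vector ω (c n) ∉ Exceptional K d B

/-- **The dynamical Lehmer inequality along typical sequences of vectors of coefficients.** -/
theorem result (m d : ℕ) (hm : 1 ≤ m) (hd : 2 ≤ d) : Typical (GoodSequence m d) := by
  classical
  refine Pool.Agent.N918.EQ.typical_of ?_ _ ?_
  · rw [Fintype.card_prod, Fintype.card_fin, Fintype.card_fin]
    nlinarith
  intro X _ ν P S c hR
  have h1 : ∀ᵐ x ∂ν, ∀ q : (Fin m × Fin m × Fin m → ℤ) × ℕ, P x →
      RareIn S (c x) (Pool.Agent.N954.RO.ExcC q.1 d q.2) := by
    rw [ae_all_iff]
    rintro ⟨κ, M⟩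
    by_cases hex : ∃ (K : Type) (_ : Field K) (_ : NumberField K)
        (ω : Module.Basis (Fin m) ℤ (𝓞 K)), Pool.Agent.N692.TS.code ω = κ
    · obtain ⟨K₀, _, _, ω₀, hω₀⟩ := hex
      exact hR _ (Pool.Agent.N954.RO.excC_null Pool.Agent.N24.RW.crit Pool.Agent.N24.RW.clo κ d hd
        M K₀ ω₀ hω₀)
    · have he : Pool.Agent.N954.RO.ExcC κ d M = ∅ := by
        rw [Set.eq_empty_iff_forall_notMem]
        rintro v ⟨K, i1, i2, ω, hω, -⟩
        exact hex ⟨K, i1, i2, ω, hω⟩
      refine Filter.Eventually.of_forall fun x _ => ?_
      rw [he]
      exact Pool.Agent.N918.EQ.rareIn_empty S (c x)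
  filter_upwards [h1] with x hx hP
  intro K _ _ ω B hB ε hε
  obtain ⟨M₀, hM₀⟩ := (hx (Pool.Agent.N692.TS.code ω, ⌈Real.exp (B * d * finrank ℚ K)⌉₊) hP) ε hε
  refine ⟨M₀, fun M hM => le_trans ?_ (hM₀ M hM)⟩
  refine Nat.cast_le.2 (Set.ncard_le_ncard ?_ ((S M).finite_toSet.subset fun n hn => hn.1))
  rintro n ⟨hn1, hn2⟩
  exact ⟨hn1, K, inferInstance, inferInstance, ω, rfl, fun hg =>
    hn2 (Pool.Agent.N954.RO.not_exceptional hd hB _ hg)⟩

end Pool.Agent.Results.MP_2194ec_nt.TypicalSequences
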